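import Pool.Agent.H832Z.KosMain

/-! Weigel's inequality `b₂ ≤ (n-1)/(2n) b₁²` fails for a Koszul algebra over every field.
The witness has four generators `a, b, p, q` and the seven relations
`ab, pa, pb, qa, qp, (b+p+q)q, b(a+b+p+q)`; its Betti numbers are `1, 4, 7, 8, 7, 4, 1`,
so `n = 6` and `2 n b₂ = 84 > 80 = (n-1) b₁²`. -/

namespace Pool.Agent.Results.MP_2e24ef_al.AWeigelFalse

open Pool.Agent.H832Z.Kos TensorProduct

universe u

theorem result (k : Type u) [Field k] :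
    ∃ R : Submodule k ((Fin 4 → k) ⊗[k] (Fin 4 → k)), IsKoszul R ∧
      ∃ (b : ℕ → ℕ) (n : ℕ), (∀ i, betti R i = (b i : Cardinal.{u})) ∧
        1 ≤ n ∧ b n ≠ 0 ∧ (∀ i, n < i → b i = 0) ∧ (n - 1) * b 1 ^ 2 < 2 * n * b 2 :=
  ⟨relS k NN, isKoszul k, rr 0, 6, betti_main k, by decide, by decide,
    fun i hi => rr_big 0 i hi, by decide⟩

end Pool.Agent.Results.MP_2e24ef_al.AWeigelFalse
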